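import Mathlib

namespace Pool.Agent.H.MP_c563b5_an

open Filter Topology Polynomial Set

inductive Ch (s : ℝ → SignType) : ℝ → ℝ → ℕ → Prop
  | refl (a : ℝ) : s a ≠ 0 → Ch s a a 0
  | keep {a b c : ℝ} {n : ℕ} : a < b → s a = s b → Ch s b c n → Ch s a c n
  | flip {a b c : ℝ} {n : ℕ} : a < b → s a = -s b → Ch s b c n → Ch s a c (n + 1)

variable {s s' : ℝ → SignType}

lemma sg {x y : SignType} (hx : x ≠ 0) (hy : y ≠ 0) : x = y ∨ x = -y := by
  revert x y; decide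

lemma sg' {x : SignType} (hx : x ≠ 0) : x ≠ -x := by
  revert x; decide

lemma Ch.ne {a c : ℝ} {n : ℕ} (h : Ch s a c n) : s a ≠ 0 := by
  induction h with
  | refl a h => exact h
  | keep _ e _ ih => rwa [e]
  | flip _ e _ ih => rw [e]; simpa using ih

lemma Ch.le {a c : ℝ} {n : ℕ} (h : Ch s a c n) : a ≤ c := by
  induction h with
  | refl a h => exact le_rfl
  | keep h _ _ ih => exact h.le.trans ih
  | flip h _ _ ih => exact h.le.trans ih

lemma Ch.zero {a c : ℝ} {n : ℕ} (h : Ch s a c n) (hn : n = 0) : s a = s c := by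
  induction h with
  | refl a h => rfl
  | keep _ e _ ih => exact e.trans (ih hn)
  | flip _ e _ ih => omega

lemma Ch.trans {a b c : ℝ} {m n : ℕ} (h : Ch s a b m) (h' : Ch s b c n) : Ch s a c (n + m) := by
  induction h with
  | refl a h => exact h'
  | keep h e _ ih => exact .keep h e (ih h')
  | flip h e _ ih => exact .flip h e (ih h')

lemma Ch.cons {a b c : ℝ} {n : ℕ} (h : Ch s b c n) (hab : a < b) (ha : s a ≠ 0) :
    ∃ n', n ≤ n' ∧ Ch s a c n' := by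
  rcases sg ha h.ne with e | e
  · exact ⟨n, le_rfl, .keep hab e h⟩
  · exact ⟨n + 1, by omega, .flip hab e h⟩

lemma Ch.split {a c p : ℝ} {n : ℕ} (h : Ch s a c n) (hp : s p ≠ 0) (hap : a ≤ p) :
    ∃ c' n₁ n₂, n ≤ n₁ + n₂ ∧ Ch s a p n₁ ∧ Ch s p c' n₂ := by
  induction h with
  | refl a h =>
    rcases hap.eq_or_lt with rfl | hap
    · exact ⟨a, 0, 0, le_rfl, .refl _ h, .refl _ h⟩
    · obtain ⟨n, -, hn⟩ := (Ch.refl p hp).cons hap h
      exact ⟨p, n, 0, by omega, hn, .refl _ hp⟩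
  | @keep a b c n h e hc ih =>
    by_cases hb : b ≤ p
    · obtain ⟨c', n₁, n₂, h1, h2, h3⟩ := ih hb
      exact ⟨c', n₁, n₂, h1, .keep h e h2, h3⟩
    · obtain ⟨n₂, h2, h3⟩ := hc.cons (not_le.1 hb) hp
      rcases hap.eq_or_lt with rfl | hap
      · exact ⟨c, 0, n₂, by omega, .refl _ hp, h3⟩
      · obtain ⟨n₁, -, hn⟩ := (Ch.refl p hp).cons hap (e ▸ hc.ne)
        exact ⟨c, n₁, n₂, by omega, hn, h3⟩
  | @flip a b c n h e hc ih =>
    by_cases hb : b ≤ p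
    · obtain ⟨c', n₁, n₂, h1, h2, h3⟩ := ih hb
      exact ⟨c', n₁ + 1, n₂, by omega, .flip h e h2, h3⟩
    · rcases hap.eq_or_lt with rfl | hap
      · exact ⟨c, 0, n + 1, by omega, .refl _ hp, .flip h e hc⟩
      · rcases sg (Ch.flip h e hc).ne hp with e' | e'
        · exact ⟨c, 0, n + 1, by omega, .keep hap e' (.refl _ hp),
            .flip (not_le.1 hb) (e' ▸ e) hc⟩
        · obtain ⟨n₂, h2, h3⟩ := hc.cons (not_le.1 hb) hp
          exact ⟨c, 1, n₂, by omega, .flip hap e' (.refl _ hp), h3⟩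

lemma Ch.const {a c : ℝ} {n : ℕ} (h : Ch s a c n) {σ : SignType} (hs : ∀ x ∈ Icc a c, s x = σ) :
    n = 0 := by
  induction h with
  | refl a h => rfl
  | keep h _ hc ih => exact ih fun x hx => hs x ⟨h.le.trans hx.1, hx.2⟩
  | @flip a b c n h e hc ih =>
    have h1 := hc.ne
    rw [hs a ⟨le_rfl, h.le.trans hc.le⟩, hs b ⟨h.le, hc.le⟩] at e
    rw [hs b ⟨h.le, hc.le⟩] at h1
    exact absurd e (sg' h1)

def MV (s s' : ℝ → SignType) : Prop :=
  ∀ a b, 0 < a → a < b → s b ≠ 0 → s a = -s b → ∃ x ∈ Ioo a b, s' x = s b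
def INF (s s' : ℝ → SignType) : Prop := ∀ a, 0 < a → s a ≠ 0 → ∃ x, a < x ∧ s' x = -s a
def ZER (s s' : ℝ → SignType) : Prop := ∀ a, 0 < a → s a ≠ 0 → ∃ x ∈ Ioo 0 a, s' x = s a

lemma Ch.l1 (mv : MV s s') {u v : ℝ} {p : ℕ} (h : Ch s u v p) (hu : 0 < u) (hp : p ≠ 0) :
    ∃ u' v', u < u' ∧ v' < v ∧ Ch s' u' v' (p - 1) ∧ s' u' = -s u ∧ s' v' = s v := by
  induction h with
  | refl a h => omega
  | keep h e _ ih =>
    obtain ⟨u', v', h1, h2, h3, h4, h5⟩ := ih (hu.trans h) hp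
    exact ⟨u', v', h.trans h1, h2, h3, e ▸ h4, h5⟩
  | @flip a b c n h e hc ih =>
    obtain ⟨x, hx, hx'⟩ := mv a b hu h hc.ne e
    by_cases hn : n = 0
    · subst hn
      exact ⟨x, x, hx.1, hx.2.trans_le hc.le, .refl _ (hx' ▸ hc.ne), by rw [hx', e, neg_neg],
        hx'.trans (hc.zero rfl)⟩
    · obtain ⟨u', v', h1, h2, h3, h4, h5⟩ := ih (hu.trans h) hn
      refine ⟨x, v', hx.1, h2, ?_, by rw [hx', e, neg_neg], h5⟩
      rw [show n + 1 - 1 = n - 1 + 1 by omega]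
      exact .flip (hx.2.trans h1) (by rw [hx', h4, neg_neg]) h3

lemma Ch.l2 (mv : MV s s') (inf : INF s s') {u v : ℝ} {q : ℕ} (h : Ch s u v q) (hu : 0 < u) :
    ∃ u' v', u < u' ∧ Ch s' u' v' q ∧ s' u' = -s u := by
  induction h with
  | refl a h =>
    obtain ⟨x, hx, e⟩ := inf a hu h
    exact ⟨x, x, hx, .refl _ (by rw [e]; simpa using h), e⟩
  | keep h e _ ih =>
    obtain ⟨u', v', h1, h2, h3⟩ := ih (hu.trans h)
    exact ⟨u', v', h.trans h1, h2, e ▸ h3⟩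
  | @flip a b c n h e hc ih =>
    obtain ⟨x, hx, hx'⟩ := mv a b hu h hc.ne e
    obtain ⟨u', v', h1, h2, h3⟩ := ih (hu.trans h)
    exact ⟨x, v', hx.1, .flip (hx.2.trans h1) (by rw [hx', h3, neg_neg]) h2,
      by rw [hx', e, neg_neg]⟩

lemma Ch.l3 (mv : MV s s') (inf : INF s s') (zer : ZER s s') {u v : ℝ} {q : ℕ} (h : Ch s u v q)
    (hu : 0 < u) : ∃ u' v', 0 < u' ∧ Ch s' u' v' (q + 1) := by
  obtain ⟨u', v', h1, h2, h3⟩ := h.l2 mv inf hu
  obtain ⟨x, hx, e⟩ := zer u hu h.ne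
  exact ⟨x, v', hx.1, .flip (hx.2.trans h1) (by rw [e, h3, neg_neg]) h2⟩

lemma Ch.l4 (mv : MV s s') (inf : INF s s') {u v e a b : ℝ} {q : ℕ} (h : Ch s u v q)
    (hu : 0 < u) (he : 0 < e) (hea : e < a) (hab : a < b) {σ : SignType} (hσ : σ ≠ 0)
    (h1 : s e = -σ) (h2 : ∀ x ∈ Icc a b, s x = σ) (h3 : s' a = -σ) (h4 : s' b = σ) :
    ∃ u' v' n, 0 < u' ∧ q + 2 ≤ n ∧ Ch s' u' v' n := by
  have he' : s e ≠ 0 := by rw [h1]; simpa using hσ
  have ha := h2 a ⟨le_rfl, hab.le⟩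
  have hb := h2 b ⟨hab.le, le_rfl⟩
  obtain ⟨u, q', hu, hue, hq, h⟩ : ∃ u' q', 0 < u' ∧ u' ≤ e ∧ q ≤ q' ∧ Ch s u' v q' := by
    by_cases hue : u ≤ e
    · exact ⟨u, q, hu, hue, le_rfl, h⟩
    · obtain ⟨n, h1, h2⟩ := h.cons (not_le.1 hue) he'
      exact ⟨e, n, he, le_rfl, h1, h2⟩
  obtain ⟨c₁, n₁, m₁, q₁, c1, h⟩ := h.split he' hue
  obtain ⟨c₂, n₂, m₂, q₂, c2, h⟩ := h.split (ha ▸ hσ) hea.le
  obtain ⟨c₃, n₃, m₃, q₃, c3, h⟩ := h.split (hb ▸ hσ) hab.le
  have z3 := c3.const h2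
  have z2 : n₂ ≠ 0 := fun z => by
    have := c2.zero z
    rw [h1, ha] at this
    exact sg' hσ this.symm
  obtain ⟨u', v', d1, d2, d3, -, d5⟩ := (c1.trans c2).l1 mv hu (by omega)
  obtain ⟨u'', v'', f1, f2, f3⟩ := h.l2 mv inf (he.trans (hea.trans hab))
  exact ⟨u', v'', _, hu.trans d1, by omega, d3.trans (.flip d2 (by rw [d5, ha, h3, neg_neg])
    (.flip hab (by rw [h3, h4]) (.flip f1 (by rw [h4, f3, hb, neg_neg]) f2)))⟩

/-- signs of a polynomial -/
noncomputable def sp (B : ℝ[X]) (x : ℝ) : SignType := SignType.sign (B.eval x)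

lemma Ch.roots {B : ℝ[X]} {a c : ℝ} {n : ℕ} (h : Ch (sp B) a c n) :
    n ≤ (B.roots.toFinset.filter (a < ·)).card := by
  induction h with
  | refl a h => omega
  | keep h _ _ ih =>
    exact ih.trans (Finset.card_le_card (Finset.monotone_filter_right _ fun x _ hx => h.trans hx))
  | @flip a b c n h e hc ih =>
    have hb : B.eval b ≠ 0 := by simpa [sp] using hc.ne
    have hB : B ≠ 0 := by rintro rfl; simp at hb
    obtain ⟨x, hx, hx'⟩ : ∃ x ∈ Ioo a b, B.eval x = 0 := by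
      rcases hb.lt_or_gt with hb | hb
      · refine intermediate_value_Ioo' h.le B.continuous.continuousOn ⟨hb, ?_⟩
        simpa [sp, sign_neg hb, sign_eq_one_iff] using e
      · refine intermediate_value_Ioo h.le B.continuous.continuousOn ⟨?_, hb⟩
        simpa [sp, sign_pos hb, sign_eq_neg_one_iff] using e
    refine (Nat.succ_le_succ ih).trans (Finset.card_lt_card ⟨Finset.monotone_filter_right _
      fun x _ hx => h.trans hx, fun hs => ?_⟩)
    have := hs (Finset.mem_filter.2 ⟨(by simp [hB, hx'] : x ∈ B.roots.toFinset), hx.1⟩)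
    exact absurd (Finset.mem_filter.1 this).2 (not_lt.2 hx.2.le)

noncomputable def nx (γ : ℝ) (n : ℕ) (B : ℝ[X]) : ℝ[X] :=
  (1 + X) * (X * derivative B + C γ * B) - C (n + 1 : ℝ) * X * B

lemma nx_deg (γ : ℝ) {n : ℕ} {B : ℝ[X]} (h : B.natDegree ≤ n) : (nx γ n B).natDegree ≤ n + 1 := by
  have h1 : (X * derivative B).natDegree ≤ n := by
    by_cases h0 : B.natDegree = 0
    · rw [natDegree_eq_zero.1 h0 |>.choose_spec.symm]; simp
    · have := natDegree_derivative_lt h0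
      have := natDegree_mul_le (p := X) (q := derivative B)
      simp at this; omega
  have h2 : (X * derivative B + C γ * B).natDegree ≤ n :=
    natDegree_add_le_of_degree_le h1 ((natDegree_C_mul_le _ _).trans h)
  refine (natDegree_sub_le _ _).trans (max_le (natDegree_mul_le.trans ?_) ?_)
  · have : (1 + X : ℝ[X]).natDegree ≤ 1 := by compute_degree
    omega
  · rw [mul_assoc]
    refine (natDegree_C_mul_le _ _).trans (natDegree_mul_le.trans ?_)
    simp; omega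

noncomputable def hh (γ : ℝ) (n : ℕ) (B : ℝ[X]) (x : ℝ) : ℝ :=
  x ^ γ * (B.eval x / (1 + x) ^ (n + 1))

lemma hh_deriv (γ : ℝ) (n : ℕ) (B : ℝ[X]) {x : ℝ} (hx : 0 < x) :
    HasDerivAt (hh γ n B) (x ^ (γ - 1) / (1 + x) ^ (n + 2) * (nx γ n B).eval x) x := by
  have h1 : (1 + x) ≠ 0 := by positivity
  have := (Real.hasDerivAt_rpow_const (p := γ) (Or.inl hx.ne')).mul ((B.hasDerivAt x).div
    (((hasDerivAt_id x).const_add 1).pow (n + 1)) (pow_ne_zero _ h1))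
  refine this.congr_deriv ?_
  rw [Real.rpow_sub_one hx.ne']
  simp [nx]
  field_simp
  ring

lemma hh_sign (γ : ℝ) (n : ℕ) (B : ℝ[X]) {x : ℝ} (hx : 0 < x) :
    SignType.sign (hh γ n B x) = sp B x := by
  rw [hh, div_eq_mul_inv, sign_mul, sign_mul, sign_pos (Real.rpow_pos_of_pos hx _),
    sign_pos (by positivity : 0 < ((1 + x) ^ (n + 1))⁻¹), one_mul, mul_one, sp]

lemma hh_mvt (γ : ℝ) (n : ℕ) (B : ℝ[X]) {a b : ℝ} (ha : 0 < a) (hab : a < b) :
    ∃ x ∈ Ioo a b, sp (nx γ n B) x = SignType.sign (hh γ n B b - hh γ n B a) := by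
  obtain ⟨x, hx, e⟩ := exists_hasDerivAt_eq_slope (hh γ n B) _ hab
    (fun x hx => (hh_deriv γ n B (ha.trans_le hx.1)).continuousAt.continuousWithinAt)
    fun x hx => hh_deriv γ n B (ha.trans hx.1)
  refine ⟨x, hx, ?_⟩
  have hx0 := ha.trans hx.1
  have := congrArg SignType.sign e
  rwa [div_eq_mul_inv (_ - _), sign_mul, sign_mul, sign_pos (by positivity),
    sign_pos (inv_pos.2 (sub_pos.2 hab)), one_mul, mul_one] at this

lemma sign_sub_of_lt {x y : ℝ} (h : |y| < |x|) : SignType.sign (x - y) = SignType.sign x := by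
  rcases lt_trichotomy x 0 with hx | hx | hx
  · rw [abs_of_neg hx, abs_lt] at h; rw [sign_neg hx, sign_neg (by linarith)]
  · rw [hx, abs_zero] at h; exact absurd h (not_lt.2 (abs_nonneg _))
  · rw [abs_of_pos hx, abs_lt] at h; rw [sign_pos hx, sign_pos (by linarith)]

lemma nx_mv (γ : ℝ) (n : ℕ) (B : ℝ[X]) : MV (sp B) (sp (nx γ n B)) := by
  intro a b ha hab hb e
  obtain ⟨x, hx, e'⟩ := hh_mvt γ n B ha hab
  refine ⟨x, hx, e'.trans ?_⟩
  rw [← hh_sign γ n B ha, ← hh_sign γ n B (ha.trans hab)] at *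
  rcases (sign_ne_zero.1 hb).lt_or_gt with h | h
  · rw [sign_neg h] at e ⊢
    rw [sign_neg (by linarith [sign_eq_one_iff.1 e])]
  · rw [sign_pos h] at e ⊢
    rw [sign_pos (by linarith [sign_eq_neg_one_iff.1 e])]

lemma nx_inf {γ : ℝ} (hγ : γ < 1) {n : ℕ} {B : ℝ[X]} (hB : B.natDegree ≤ n) :
    INF (sp B) (sp (nx γ n B)) := by
  intro a ha h
  have t : Tendsto (hh γ n B) atTop (𝓝 0) := by
    have t1 := (tendsto_rpow_neg_atTop (sub_pos.2 hγ)).const_mul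
      (∑ i ∈ Finset.range (n + 1), |B.coeff i|)
    rw [mul_zero] at t1
    refine squeeze_zero_norm' ?_ t1
    filter_upwards [eventually_gt_atTop 0] with x hx
    have h1 : |B.eval x| ≤ (∑ i ∈ Finset.range (n + 1), |B.coeff i|) * (1 + x) ^ n := by
      rw [eval_eq_sum_range' (Nat.lt_succ_of_le hB), Finset.sum_mul]
      refine (Finset.abs_sum_le_sum_abs _ _).trans (Finset.sum_le_sum fun i hi => ?_)
      rw [abs_mul, abs_of_pos (pow_pos hx _)]
      gcongr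
      exact (pow_le_pow_left₀ hx.le (by linarith) _).trans
        (pow_le_pow_right₀ (by linarith) (Nat.lt_succ_iff.1 (Finset.mem_range.1 hi)))
    rw [Real.norm_eq_abs, hh, abs_mul, abs_div, abs_of_pos (Real.rpow_pos_of_pos hx _),
      abs_of_pos (by positivity : 0 < (1 + x) ^ (n + 1)), neg_sub, Real.rpow_sub_one hx.ne',
      mul_comm, mul_div_assoc', mul_div_right_comm]
    refine mul_le_mul_of_nonneg_right ?_ (Real.rpow_pos_of_pos hx _).le
    rw [div_le_div_iff₀ (by positivity) hx, pow_succ, ← mul_assoc]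
    gcongr; linarith
  rw [← hh_sign γ n B ha] at h ⊢
  obtain ⟨b, hb, hab⟩ := ((t.abs.eventually (gt_mem_nhds (by
    simpa using sign_ne_zero.1 h : |0| < |hh γ n B a|))).and (eventually_gt_atTop a)).exists
  obtain ⟨x, hx, e⟩ := hh_mvt γ n B ha hab
  exact ⟨x, hx.1, by rw [e, ← neg_sub, Left.sign_neg, sign_sub_of_lt hb]⟩

lemma nx_zer {γ : ℝ} (hγ : 0 < γ) (n : ℕ) (B : ℝ[X]) : ZER (sp B) (sp (nx γ n B)) := by
  intro a ha h
  have t : Tendsto (hh γ n B) (𝓝[>] 0) (𝓝 0) := by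
    have : ContinuousAt (hh γ n B) 0 := (Real.continuousAt_rpow_const _ _ (Or.inr hγ.le)).mul
      (B.continuous.continuousAt.div (by fun_prop) (by simp))
    simpa [hh, hγ.ne'] using this.tendsto.mono_left nhdsWithin_le_nhds
  rw [← hh_sign γ n B ha] at h ⊢
  obtain ⟨b, hb, hab⟩ := ((t.abs.eventually (gt_mem_nhds (by
    simpa using sign_ne_zero.1 h : |0| < |hh γ n B a|))).and (Ioo_mem_nhdsGT ha)).exists
  obtain ⟨x, hx, e⟩ := hh_mvt γ n B hab.1 hab.2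
  exact ⟨x, ⟨hab.1.trans hx.1, hx.2⟩, by rw [e, sign_sub_of_lt hb]⟩

end Pool.Agent.H.MP_c563b5_an
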